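import Mathlib

set_option autoImplicit false

namespace Pool.Agent.Results.MP_ffcab7_co.Counter

open Metric

/-- closed balls with positive radii and disjoint interiors whose tangency graph is `G` -/
def IsPacking {V : Type} {k : ℕ} (G : SimpleGraph V) (c : V → EuclideanSpace ℝ (Fin k))
    (r : V → ℝ) : Prop :=
  (∀ v, 0 < r v) ∧ ∀ u v, u ≠ v → Disjoint (ball (c u) (r u)) (ball (c v) (r v)) ∧
    ((closedBall (c u) (r u) ∩ closedBall (c v) (r v)).Nonempty ↔ G.Adj u v)

def IsHeight {V : Type} (G : SimpleGraph V) (f : V → ℤ) : Prop :=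
  ∀ u v, G.Adj u v → |f u - f v| ≤ 1

/-- `g v` is a nearest vertex of smaller height, whenever there is a vertex of smaller height -/
def IsNearestChoice {V : Type} (c : V → EuclideanSpace ℝ (Fin 2)) (f : V → ℤ) (g : V → V) :
    Prop :=
  ∀ v, (∃ u, f u < f v) → f (g v) < f v ∧ ∀ u, f u < f v → dist (c (g v)) (c v) ≤ dist (c u) (c v)

/-- the augmented graph -/
def augment {V : Type} (G : SimpleGraph V) (f : V → ℤ) (g : V → V) : SimpleGraph V :=
  G ⊔ SimpleGraph.fromRel fun v u => (∃ x, f x < f v) ∧ u = g v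

theorem packing_iff {V : Type} {k : ℕ} (G : SimpleGraph V) (c : V → EuclideanSpace ℝ (Fin k))
    (r : V → ℝ) : IsPacking G c r ↔ (∀ v, 0 < r v) ∧ ∀ u v, u ≠ v →
      r u + r v ≤ dist (c u) (c v) ∧ (dist (c u) (c v) ≤ r u + r v ↔ G.Adj u v) := by
  refine and_congr_right fun hr => forall_congr' fun u => forall_congr' fun v =>
    forall_congr' fun _ => and_congr (disjoint_ball_ball_iff (hr u) (hr v)) ?_
  rw [← Set.not_disjoint_iff_nonempty_inter,
    disjoint_closedBall_closedBall_iff (hr u).le (hr v).le, not_lt]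

abbrev E3 := EuclideanSpace ℝ (Fin 3)
abbrev W := E3 × ℝ × ℝ

noncomputable def B (x y : W) : ℝ := inner ℝ x.1 y.1 - (x.2.1 * y.2.2 + x.2.2 * y.2.1) / 2

noncomputable def lift (c : E3) (r : ℝ) : W := (r⁻¹ • c, r⁻¹, (‖c‖ ^ 2 - r ^ 2) / r)

theorem B_lift (c c' : E3) {r r' : ℝ} (hr : 0 < r) (hr' : 0 < r') :
    B (lift c r) (lift c' r') = (r ^ 2 + r' ^ 2 - dist c c' ^ 2) / (2 * r * r') := by
  simp only [B, lift, inner_smul_left, inner_smul_right, dist_eq_norm, norm_sub_sq_real,
    RCLike.conj_to_real]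
  field_simp
  ring

theorem B_add (x y z : W) : B (x + y) z = B x z + B y z := by
  simp only [B, Prod.fst_add, Prod.snd_add, inner_add_left]; ring

theorem B_sub (x y z : W) : B (x - y) z = B x z - B y z := by
  simp only [B, Prod.fst_sub, Prod.snd_sub, inner_sub_left]; ring

theorem B_smul (a : ℝ) (x z : W) : B (a • x) z = a * B x z := by
  simp only [B, Prod.smul_fst, Prod.smul_snd, inner_smul_left, smul_eq_mul, RCLike.conj_to_real]
  ring

theorem B_zero (z : W) : B 0 z = 0 := by simp [B]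

theorem step (x : Fin 6 → W) (h1 : ∀ i, B (x i) (x i) = 1)
    (h2 : ∀ i j, i ≠ j → ¬ (i = 4 ∧ j = 5) → ¬ (i = 5 ∧ j = 4) → B (x i) (x j) = -1)
    (τ : ℝ) (hτ : τ ≤ -1) (h3 : B (x 4) (x 5) = τ) (h4 : B (x 5) (x 4) = τ) :
    x 5 = x 0 + x 1 + x 2 + x 3 - x 4 := by
  have hdep : ¬ LinearIndependent ℝ x := by
    intro h
    have := h.fintype_card_le_finrank
    simp at this
  obtain ⟨g, hg, j, hj⟩ := Fintype.not_linearIndependent_iff.1 hdep
  rw [Fin.sum_univ_six] at hg
  have key : ∀ i, g 0 * B (x 0) (x i) + g 1 * B (x 1) (x i) + g 2 * B (x 2) (x i) +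
      g 3 * B (x 3) (x i) + g 4 * B (x 4) (x i) + g 5 * B (x 5) (x i) = 0 := by
    intro i
    have := congrArg (fun y => B y (x i)) hg
    simpa only [B_add, B_smul, B_zero] using this
  have e0 := key 0
  have e1 := key 1
  have e2 := key 2
  have e3 := key 3
  have e4 := key 4
  have e5 := key 5
  rw [h1, h2 1 0 (by decide) (by decide) (by decide), h2 2 0 (by decide) (by decide) (by decide),
    h2 3 0 (by decide) (by decide) (by decide), h2 4 0 (by decide) (by decide) (by decide),
    h2 5 0 (by decide) (by decide) (by decide)] at e0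
  rw [h1, h2 0 1 (by decide) (by decide) (by decide), h2 2 1 (by decide) (by decide) (by decide),
    h2 3 1 (by decide) (by decide) (by decide), h2 4 1 (by decide) (by decide) (by decide),
    h2 5 1 (by decide) (by decide) (by decide)] at e1
  rw [h1, h2 0 2 (by decide) (by decide) (by decide), h2 1 2 (by decide) (by decide) (by decide),
    h2 3 2 (by decide) (by decide) (by decide), h2 4 2 (by decide) (by decide) (by decide),
    h2 5 2 (by decide) (by decide) (by decide)] at e2
  rw [h1, h2 0 3 (by decide) (by decide) (by decide), h2 1 3 (by decide) (by decide) (by decide),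
    h2 2 3 (by decide) (by decide) (by decide), h2 4 3 (by decide) (by decide) (by decide),
    h2 5 3 (by decide) (by decide) (by decide)] at e3
  rw [h1, h2 0 4 (by decide) (by decide) (by decide), h2 1 4 (by decide) (by decide) (by decide),
    h2 2 4 (by decide) (by decide) (by decide), h2 3 4 (by decide) (by decide) (by decide),
    h4] at e4
  rw [h1, h2 0 5 (by decide) (by decide) (by decide), h2 1 5 (by decide) (by decide) (by decide),
    h2 2 5 (by decide) (by decide) (by decide), h2 3 5 (by decide) (by decide) (by decide),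
    h3] at e5
  have a1 : g 1 = g 0 := by linarith
  have a2 : g 2 = g 0 := by linarith
  have a3 : g 3 = g 0 := by linarith
  have a45 : g 4 = g 5 := by
    have : (1 - τ) * (g 4 - g 5) = 0 := by linarith
    rcases mul_eq_zero.1 this with h | h <;> linarith
  have a5 : g 5 = -g 0 := by linarith
  have a4 : g 4 = -g 0 := by linarith
  have g0 : g 0 ≠ 0 := by
    intro h
    apply hj
    fin_cases j <;> simp_all
  rw [a1, a2, a3, a4, a5] at hg
  have : g 0 • (x 0 + x 1 + x 2 + x 3 - x 4 - x 5) = 0 := by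
    rw [← hg]; module
  exact (sub_eq_zero.1 ((smul_eq_zero.1 this).resolve_left g0)).symm

/-! ### the example -/

def cx : Fin 9 → ℤ := ![0, -840, 840, 0, 0, 0, 0, 0, 0]
def cy : Fin 9 → ℤ := ![1680, 0, 0, 630, 350, 245, 189, 154, 130]
def rr : Fin 9 → ℤ := ![840, 840, 840, 210, 70, 35, 21, 14, 10]

def G : SimpleGraph (Fin 9) where
  Adj u v := u ≠ v ∧ (cx u - cx v) ^ 2 + (cy u - cy v) ^ 2 = (rr u + rr v) ^ 2
  symm := ⟨fun _ _ h => ⟨h.1.symm, by linarith [h.2]⟩⟩
  loopless := ⟨fun _ h => h.1 rfl⟩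

instance : DecidableRel G.Adj := fun u v => by unfold G; infer_instance

noncomputable def cc (v : Fin 9) : EuclideanSpace ℝ (Fin 2) := !₂[(cx v : ℝ), (cy v : ℝ)]

def ff (v : Fin 9) : ℤ := if v = 0 then 0 else 1

theorem rpos : ∀ v, 0 < rr v := by decide
theorem sep : ∀ u v, u ≠ v → (rr u + rr v) ^ 2 ≤ (cx u - cx v) ^ 2 + (cy u - cy v) ^ 2 := by
  decide +kernel

theorem pack : IsPacking G cc (fun v => (rr v : ℝ)) := by
  rw [packing_iff]
  refine ⟨fun v => by exact_mod_cast rpos v, fun u v huv => ?_⟩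
  have hd : dist (cc u) (cc v) ^ 2 = (((cx u - cx v) ^ 2 + (cy u - cy v) ^ 2 : ℤ) : ℝ) := by
    rw [EuclideanSpace.dist_eq, Real.sq_sqrt (by positivity), Fin.sum_univ_two]
    simp [cc, Real.dist_eq]
  have h0 : (0 : ℝ) ≤ (rr u : ℝ) + rr v := by
    have := rpos u
    have := rpos v
    positivity
  have h1 : ((rr u : ℝ) + rr v) ^ 2 ≤ dist (cc u) (cc v) ^ 2 := by
    rw [hd]; exact_mod_cast sep u v huv
  have h2 := (sq_le_sq₀ h0 dist_nonneg).1 h1
  refine ⟨h2, fun h => ⟨huv, ?_⟩, fun h => ?_⟩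
  · rw [le_antisymm h h2] at hd
    exact_mod_cast hd.symm
  · rw [h.2] at hd
    push_cast at hd
    exact (sq_le_sq₀ dist_nonneg h0).1 hd.le

theorem adj_iff (u v : Fin 9) : (augment G ff fun _ => 0).Adj u v ↔
    G.Adj u v ∨ (u ≠ v ∧ (u = 0 ∨ v = 0)) := by
  simp only [augment, SimpleGraph.sup_adj, SimpleGraph.fromRel_adj]
  revert u v
  decide +kernel

theorem result : ∃ (V : Type) (_ : Fintype V) (G : SimpleGraph V)
    (c : V → EuclideanSpace ℝ (Fin 2)) (r : V → ℝ) (f : V → ℤ) (g : V → V),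
    G.Connected ∧ IsPacking G c r ∧ IsHeight G f ∧ IsNearestChoice c f g ∧
      ¬ ∃ (c' : V → EuclideanSpace ℝ (Fin 3)) (r' : V → ℝ), IsPacking (augment G f g) c' r' := by
  refine ⟨Fin 9, inferInstance, G, cc, _, ff, fun _ => 0, by decide +kernel, pack, ?_, ?_, ?_⟩
  · intro u v _
    unfold ff
    split_ifs <;> simp
  · intro v ⟨u, hu⟩
    have key : ∀ u, ff u < ff v → u = 0 := by
      intro u; unfold ff; split_ifs <;> simp_all
    obtain rfl := key u hu
    exact ⟨hu, fun u h => by rw [key u h]⟩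
  · rintro ⟨c, r, h⟩
    rw [packing_iff] at h
    obtain ⟨hr, h⟩ := h
    let y : Fin 9 → W := fun v => lift (c v) (r v)
    have b1 : ∀ v, B (y v) (y v) = 1 := by
      intro v
      have := hr v
      rw [B_lift _ _ this this, dist_self]
      field_simp
      ring
    have b2 : ∀ u v, u ≠ v → B (y u) (y v) ≤ -1 := by
      intro u v huv
      have p := hr u
      have q := hr v
      rw [B_lift _ _ p q, div_le_iff₀ (by positivity)]
      have := (h u v huv).1
      nlinarith
    have b3 : ∀ u v, u ≠ v → (B (y u) (y v) = -1 ↔ G.Adj u v ∨ (u ≠ v ∧ (u = 0 ∨ v = 0))) := by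
      intro u v huv
      have p := hr u
      have q := hr v
      rw [← adj_iff, ← (h u v huv).2, B_lift _ _ p q, div_eq_iff (by positivity)]
      have := (h u v huv).1
      constructor
      · intro e
        exact (sq_le_sq₀ dist_nonneg (by positivity)).1 (by nlinarith)
      · intro e
        rw [le_antisymm e this]; ring
    have bs : ∀ u v, B (y u) (y v) = B (y v) (y u) := by
      intro u v
      rw [B_lift _ _ (hr u) (hr v), B_lift _ _ (hr v) (hr u), dist_comm]; ring
    have st : ∀ ι : Fin 6 → Fin 9, (∀ i j, i ≠ j → ι i ≠ ι j ∧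
        (¬ (i = 4 ∧ j = 5) → ¬ (i = 5 ∧ j = 4) →
          G.Adj (ι i) (ι j) ∨ (ι i ≠ ι j ∧ (ι i = 0 ∨ ι j = 0)))) →
        y (ι 5) = y (ι 0) + y (ι 1) + y (ι 2) + y (ι 3) - y (ι 4) := by
      intro ι hι
      exact step (fun i => y (ι i)) (fun i => b1 _)
        (fun i j hij a b => (b3 _ _ (hι i j hij).1).2 ((hι i j hij).2 a b)) _
        (b2 _ _ (hι 4 5 (by decide)).1) rfl (bs _ _)
    have s5 : y 5 = y 0 + y 1 + y 2 + y 4 - y 3 := st ![0, 1, 2, 4, 3, 5] (by decide +kernel)
    have s6 : y 6 = y 0 + y 1 + y 2 + y 5 - y 4 := st ![0, 1, 2, 5, 4, 6] (by decide +kernel)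
    have s7 : y 7 = y 0 + y 1 + y 2 + y 6 - y 5 := st ![0, 1, 2, 6, 5, 7] (by decide +kernel)
    have s8 : y 8 = y 0 + y 1 + y 2 + y 7 - y 6 := st ![0, 1, 2, 7, 6, 8] (by decide +kernel)
    have e : y 8 = y 0 + y 1 + y 2 + y 3 - y 4 := by
      rw [s8, s7, s5]; abel
    have : B (y 8) (y 3) = -1 := by
      rw [e, B_sub, B_add, B_add, B_add, b1, (b3 0 3 (by decide)).2 (by decide +kernel),
        (b3 1 3 (by decide)).2 (by decide +kernel), (b3 2 3 (by decide)).2 (by decide +kernel),
        (b3 4 3 (by decide)).2 (by decide +kernel)]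
      norm_num
    exact absurd ((b3 8 3 (by decide)).1 this) (by decide +kernel)

end Pool.Agent.Results.MP_ffcab7_co.Counter
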